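import Pool.Agent.H94.C1.Targets

/-!
# HRD: Hardy's inequality with the weight `1/(1+|x|²)`
-/

set_option autoImplicit false

namespace Pool.Agent.H3.C1

open MeasureTheory Set FourierTransform Pool.Agent.H82.KL Pool.Agent.H94.C1
open scoped ENNReal NNReal SchwartzMap

/-- the vector field -/
noncomputable def Vf {d : ℕ} (H : EE d → ℂ) (j : Fin d) (x : EE d) : ℝ :=
  ‖H x‖ ^ 2 * x j / (1 + ‖x‖ ^ 2)

lemma vf_contDiff {d : ℕ} (H : EE d → ℂ) (j : Fin d) (hH : ContDiff ℝ 1 H) :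
    ContDiff ℝ 1 (Vf H j) := by
  unfold Vf
  refine ContDiff.div ((hH.norm_sq ℝ).mul ?_) (contDiff_const.add (contDiff_norm_sq ℝ)) ?_
  · exact (EuclideanSpace.proj j : EE d →L[ℝ] ℝ).contDiff
  · intro x
    positivity

lemma vf_deriv {d : ℕ} (H : EE d → ℂ) (j : Fin d) (hH : ContDiff ℝ 1 H) (x : EE d) :
    fderiv ℝ (Vf H j) x (ei j) =
      ((2 * inner ℝ (H x) (fderiv ℝ H x (ei j)) * x j + ‖H x‖ ^ 2) * (1 + ‖x‖ ^ 2) -
        ‖H x‖ ^ 2 * x j * (2 * x j)) / (1 + ‖x‖ ^ 2) ^ 2 := by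
  have hγ : HasDerivAt (fun t : ℝ => x + t • (ei j : EE d)) (ei j) 0 := by
    have := ((hasDerivAt_id (0 : ℝ)).smul_const (ei j : EE d)).const_add x
    simpa using this
  have hγ0 : x + (0 : ℝ) • (ei j : EE d) = x := by simp
  have hHd : HasDerivAt (fun t : ℝ => H (x + t • (ei j : EE d))) (fderiv ℝ H x (ei j)) 0 := by
    have h1 : HasFDerivAt H (fderiv ℝ H x) (x + (0 : ℝ) • (ei j : EE d)) := by
      rw [hγ0]; exact (hH.differentiable one_ne_zero x).hasFDerivAt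
    exact h1.comp_hasDerivAt 0 hγ
  have hVd : HasDerivAt (fun t : ℝ => Vf H j (x + t • (ei j : EE d)))
      (fderiv ℝ (Vf H j) x (ei j)) 0 := by
    have h1 : HasFDerivAt (Vf H j) (fderiv ℝ (Vf H j) x) (x + (0 : ℝ) • (ei j : EE d)) := by
      rw [hγ0]; exact ((vf_contDiff H j hH).differentiable one_ne_zero x).hasFDerivAt
    exact h1.comp_hasDerivAt 0 hγ
  have hx : HasDerivAt (fun t : ℝ => (x + t • (ei j : EE d)) j) 1 0 := by
    have h1 : (fun t : ℝ => (x + t • (ei j : EE d)) j) = fun t => x j + t := by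
      funext t
      simp
    rw [h1]
    exact (hasDerivAt_id (0 : ℝ)).const_add (x j)
  have hn := hγ.norm_sq
  have hin : inner ℝ (x + (0 : ℝ) • (ei j : EE d)) (ei j) = x j := by
    rw [hγ0]
    simp [EuclideanSpace.inner_single_right]
  have hq := ((hHd.norm_sq).mul hx).div (hn.const_add 1) (by positivity)
  rw [hin] at hq
  have := hVd.unique hq
  rw [this]
  simp only [hγ0]
  simp

lemma fderiv_dir {d : ℕ} (H : EE d → ℂ) (x v : EE d) :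
    fderiv ℝ H x v = ∑ j, v j • fderiv ℝ H x (ei j) := by
  have hv : v = ∑ j, v j • (ei j : EE d) := by
    ext i
    simp [Finset.sum_apply, Pi.single_apply]
  conv_lhs => rw [hv, map_sum]
  exact Finset.sum_congr rfl fun j _ => map_smul _ _ _

/-- the sum of the derivatives -/
lemma vf_sum {d : ℕ} (H : EE d → ℂ) (hH : ContDiff ℝ 1 H) (x : EE d) :
    ∑ j, fderiv ℝ (Vf H j) x (ei j) =
      (2 * inner ℝ (H x) (fderiv ℝ H x x) + d * ‖H x‖ ^ 2) / (1 + ‖x‖ ^ 2) -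
        2 * ‖H x‖ ^ 2 * ‖x‖ ^ 2 / (1 + ‖x‖ ^ 2) ^ 2 := by
  have hw : (1 + ‖x‖ ^ 2 : ℝ) ≠ 0 := by positivity
  have hn : ‖x‖ ^ 2 = ∑ j, x j ^ 2 := EuclideanSpace.real_norm_sq_eq x
  have h1 : ∀ j, fderiv ℝ (Vf H j) x (ei j) =
      (2 * (x j * inner ℝ (H x) (fderiv ℝ H x (ei j))) + ‖H x‖ ^ 2) / (1 + ‖x‖ ^ 2) -
        2 * ‖H x‖ ^ 2 / (1 + ‖x‖ ^ 2) ^ 2 * x j ^ 2 := fun j => by
    rw [vf_deriv H j hH x]
    field_simp
  simp only [h1]
  rw [Finset.sum_sub_distrib, ← Finset.sum_div, Finset.sum_add_distrib, ← Finset.mul_sum,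
    ← Finset.mul_sum, ← hn, fderiv_dir H x x, inner_sum]
  simp only [inner_smul_right, Finset.sum_const, Finset.card_univ, Fintype.card_fin,
    nsmul_eq_mul]
  ring

lemma dir_le {d : ℕ} (H : EE d → ℂ) (x : EE d) :
    ‖fderiv ℝ H x x‖ ^ 2 ≤ ‖x‖ ^ 2 * gr H x := by
  have hn : ‖x‖ ^ 2 = ∑ j, x j ^ 2 := EuclideanSpace.real_norm_sq_eq x
  have h1 : ‖fderiv ℝ H x x‖ ≤ ∑ j, |x j| * ‖fderiv ℝ H x (ei j)‖ := by
    rw [fderiv_dir H x x]
    refine (norm_sum_le _ _).trans (Finset.sum_le_sum fun j _ => ?_)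
    rw [norm_smul, Real.norm_eq_abs]
  calc ‖fderiv ℝ H x x‖ ^ 2 ≤ (∑ j, |x j| * ‖fderiv ℝ H x (ei j)‖) ^ 2 := by
        gcongr
    _ ≤ (∑ j, |x j| ^ 2) * ∑ j, ‖fderiv ℝ H x (ei j)‖ ^ 2 :=
        Finset.sum_mul_sq_le_sq_mul_sq _ _ _
    _ = ‖x‖ ^ 2 * gr H x := by
        rw [hn]
        simp only [sq_abs]
        rfl

/-- the pointwise inequality, `2 c = d - 2` -/
lemma vf_ge {d : ℕ} (H : EE d → ℂ) (hH : ContDiff ℝ 1 H) (c : ℝ) (hc : 0 < c)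
    (hd : (d : ℝ) - 2 = 2 * c) (x : EE d) :
    c * (‖H x‖ ^ 2 * (1 / (1 + ‖x‖ ^ 2))) - c⁻¹ * gr H x ≤
      ∑ j, fderiv ℝ (Vf H j) x (ei j) := by
  rw [vf_sum H hH x]
  set h := ‖H x‖ with hh
  set n := ‖x‖ ^ 2 with hn
  have hn0 : 0 ≤ n := by positivity
  set D := ‖fderiv ℝ H x x‖ with hD
  have hw : 0 < 1 + n := by positivity
  have h1 : -(h * D) ≤ inner ℝ (H x) (fderiv ℝ H x x) := by
    have := abs_real_inner_le_norm (H x) (fderiv ℝ H x x)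
    exact (abs_le.1 this).1
  have h2 : D ^ 2 ≤ n * gr H x := dir_le H x
  have h3 : 2 * (h * D) ≤ c * h ^ 2 + c⁻¹ * D ^ 2 := by
    have h4 : 0 ≤ c⁻¹ * (c * h - D) ^ 2 := by positivity
    have h5 : c⁻¹ * (c * h - D) ^ 2 = c * h ^ 2 + c⁻¹ * D ^ 2 - 2 * (h * D) := by
      field_simp
      ring
    linarith
  have hg : 0 ≤ gr H x := Finset.sum_nonneg fun j _ => by positivity
  have h6 : c⁻¹ * D ^ 2 ≤ c⁻¹ * gr H x * (1 + n) := by
    have h7 : D ^ 2 ≤ gr H x * (1 + n) := by nlinarith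
    calc c⁻¹ * D ^ 2 ≤ c⁻¹ * (gr H x * (1 + n)) := by gcongr
      _ = _ := by ring
  have h8 : 2 * h ^ 2 * n / (1 + n) ^ 2 ≤ 2 * h ^ 2 / (1 + n) := by
    rw [div_le_div_iff₀ (by positivity) hw]
    have : 0 ≤ h ^ 2 * (1 + n) := by positivity
    nlinarith
  have h9 : c * (h ^ 2 * (1 / (1 + n))) - c⁻¹ * gr H x + 2 * h ^ 2 / (1 + n) ≤
      (2 * inner ℝ (H x) (fderiv ℝ H x x) + d * h ^ 2) / (1 + n) := by
    rw [le_div_iff₀ hw]
    have h10 : (c * (h ^ 2 * (1 / (1 + n))) - c⁻¹ * gr H x + 2 * h ^ 2 / (1 + n)) * (1 + n) =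
        c * h ^ 2 - c⁻¹ * gr H x * (1 + n) + 2 * h ^ 2 := by
      field_simp
    rw [h10]
    have h11 : (d : ℝ) * h ^ 2 = (2 + 2 * c) * h ^ 2 := by rw [← hd]; ring
    rw [h11]
    linarith
  linarith

/-- HRD -/
theorem pf_HRD (hV : T_DIV) : T_HRD := by
  intro d H C hd hH hb hb'
  obtain ⟨c, hc⟩ : ∃ c : ℝ, c = ((d : ℝ) - 2) / 2 := ⟨_, rfl⟩
  have hd3 : (3 : ℝ) ≤ d := by exact_mod_cast hd
  have hc0 : 0 < c := by rw [hc]; linarith
  have hdc : (d : ℝ) - 2 = 2 * c := by rw [hc]; ring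
  set ρ : EE d → ℝ := fun x => ((1 + ‖x‖) ^ (d + 2))⁻¹ with hρ
  have hρ0 : ∀ x, 0 ≤ ρ x := fun x => by positivity
  have hρ1 : ∀ x, ρ x ≤ 1 := fun x => by
    refine inv_le_one_of_one_le₀ (one_le_pow₀ ?_)
    linarith [norm_nonneg x]
  have hρi : Integrable ρ := by
    have h1 : (Module.finrank ℝ (EE d) : ℝ) < ((d + 2 : ℕ) : ℝ) := by
      rw [finrank_euclideanSpace_fin]
      push_cast
      linarith
    refine (integrable_one_add_norm (μ := volume) h1).congr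
      (Filter.Eventually.of_forall fun x => ?_)
    show (1 + ‖x‖) ^ (-((d + 2 : ℕ) : ℝ)) = ((1 + ‖x‖) ^ (d + 2))⁻¹
    rw [Real.rpow_neg (by positivity), Real.rpow_natCast]
  have hC0 : 0 ≤ C := by
    have h1 := (norm_nonneg _).trans (hb 0)
    simpa using h1
  have key : ∀ (f : EE d → ℝ) (K : ℝ), Continuous f → (∀ x, |f x| ≤ K * ρ x) → Integrable f := by
    intro f K hf hK
    exact (hρi.const_mul K).mono' hf.aestronglyMeasurable (Filter.Eventually.of_forall hK)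
  have hH2 : ∀ x, ‖H x‖ ^ 2 ≤ C ^ 2 * ρ x := fun x => by
    have h1 : ‖H x‖ ≤ C * ρ x := hb x
    have h2 : ‖H x‖ ≤ C := h1.trans (by nlinarith [hρ1 x, hρ0 x])
    nlinarith [norm_nonneg (H x)]
  have hD2 : ∀ x, ‖fderiv ℝ H x‖ ^ 2 ≤ C ^ 2 * ρ x := fun x => by
    have h1 : ‖fderiv ℝ H x‖ ≤ C * ρ x := hb' x
    have h2 : ‖fderiv ℝ H x‖ ≤ C := h1.trans (by nlinarith [hρ1 x, hρ0 x])
    nlinarith [norm_nonneg (fderiv ℝ H x)]
  have hHD : ∀ x, ‖H x‖ * ‖fderiv ℝ H x‖ ≤ C ^ 2 * ρ x := fun x => by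
    nlinarith [hH2 x, hD2 x, sq_nonneg (‖H x‖ - ‖fderiv ℝ H x‖)]
  have hw1 : ∀ x : EE d, 1 / (1 + ‖x‖ ^ 2) ≤ 1 := fun x => by
    rw [div_le_one (by positivity)]
    nlinarith [sq_nonneg ‖x‖]
  have hxj : ∀ (x : EE d) (j : Fin d), |x j| ≤ ‖x‖ := fun x j => by
    have := PiLp.norm_apply_le x j
    rwa [Real.norm_eq_abs] at this
  have hei : ∀ j : Fin d, ‖(ei j : EE d)‖ = 1 := fun j => by simp
  have hdir : ∀ (x : EE d) (j : Fin d), ‖fderiv ℝ H x (ei j)‖ ≤ ‖fderiv ℝ H x‖ := fun x j => by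
    have := (fderiv ℝ H x).le_opNorm (ei j)
    rwa [hei, mul_one] at this
  have hfc : Continuous (fderiv ℝ H) := hH.continuous_fderiv one_ne_zero
  -- integrability
  have hi1 : Integrable fun x => ‖H x‖ ^ 2 * (1 / (1 + ‖x‖ ^ 2)) := by
    refine key _ (C ^ 2) ?_ fun x => ?_
    · refine (hH.continuous.norm.pow 2).mul (Continuous.div (by fun_prop) (by fun_prop) ?_)
      intro x
      positivity
    · rw [abs_of_nonneg (by positivity)]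
      have := hw1 x
      have h0 : 0 ≤ ‖H x‖ ^ 2 := by positivity
      nlinarith [hH2 x]
  have hgc : Continuous (gr H) := by
    unfold gr
    exact continuous_finsetSum _ fun j _ => ((hfc.clm_apply continuous_const).norm.pow 2)
  have hg0 : ∀ x, 0 ≤ gr H x := fun x => Finset.sum_nonneg fun j _ => by positivity
  have hi2 : Integrable (gr H) := by
    refine key _ (d * C ^ 2) hgc fun x => ?_
    rw [abs_of_nonneg (hg0 x)]
    have h1 : gr H x ≤ ∑ j : Fin d, C ^ 2 * ρ x := by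
      refine Finset.sum_le_sum fun j _ => le_trans ?_ (hD2 x)
      gcongr
      exact hdir x j
    rw [Finset.sum_const, Finset.card_univ, Fintype.card_fin, nsmul_eq_mul] at h1
    linarith
  have hVc : ∀ j, ContDiff ℝ 1 (Vf H j) := fun j => vf_contDiff H j hH
  have hVi : ∀ j, Integrable (Vf H j) := by
    intro j
    refine key _ (C ^ 2) (hVc j).continuous fun x => ?_
    have h1 : |Vf H j x| = ‖H x‖ ^ 2 * (|x j| / (1 + ‖x‖ ^ 2)) := by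
      unfold Vf
      rw [abs_div, abs_mul, abs_of_nonneg (by positivity : 0 ≤ ‖H x‖ ^ 2),
        abs_of_nonneg (by positivity : 0 ≤ 1 + ‖x‖ ^ 2)]
      ring
    have h2 : |x j| / (1 + ‖x‖ ^ 2) ≤ 1 := by
      rw [div_le_one (by positivity)]
      nlinarith [hxj x j, sq_nonneg (‖x‖ - 1), norm_nonneg x]
    rw [h1]
    have h0 : 0 ≤ ‖H x‖ ^ 2 := by positivity
    nlinarith [hH2 x]
  have hVd : ∀ j, Integrable (fun x => fderiv ℝ (Vf H j) x (ei j)) := by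
    intro j
    refine key _ (5 * C ^ 2) (((hVc j).continuous_fderiv one_ne_zero).clm_apply
      continuous_const) fun x => ?_
    have hw : (1 + ‖x‖ ^ 2 : ℝ) ≠ 0 := by positivity
    have h1 : fderiv ℝ (Vf H j) x (ei j) =
        2 * inner ℝ (H x) (fderiv ℝ H x (ei j)) * (x j / (1 + ‖x‖ ^ 2)) +
        ‖H x‖ ^ 2 * (1 / (1 + ‖x‖ ^ 2)) -
        2 * ‖H x‖ ^ 2 * (x j / (1 + ‖x‖ ^ 2)) ^ 2 := by
      rw [vf_deriv H j hH x]
      field_simp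
    have h2 : |x j / (1 + ‖x‖ ^ 2)| ≤ 1 := by
      rw [abs_div, abs_of_nonneg (by positivity : 0 ≤ 1 + ‖x‖ ^ 2), div_le_one (by positivity)]
      nlinarith [hxj x j, sq_nonneg (‖x‖ - 1), norm_nonneg x]
    have h3 : |inner ℝ (H x) (fderiv ℝ H x (ei j))| ≤ C ^ 2 * ρ x := by
      refine (abs_real_inner_le_norm _ _).trans (le_trans ?_ (hHD x))
      gcongr
      exact hdir x j
    have h4 : |2 * inner ℝ (H x) (fderiv ℝ H x (ei j)) * (x j / (1 + ‖x‖ ^ 2))| ≤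
        2 * (C ^ 2 * ρ x) := by
      rw [abs_mul, abs_mul, abs_two]
      have h0 : 0 ≤ |inner ℝ (H x) (fderiv ℝ H x (ei j))| := abs_nonneg _
      nlinarith
    have h5 : |‖H x‖ ^ 2 * (1 / (1 + ‖x‖ ^ 2))| ≤ C ^ 2 * ρ x := by
      rw [abs_of_nonneg (by positivity)]
      have := hw1 x
      have h0 : 0 ≤ ‖H x‖ ^ 2 := by positivity
      nlinarith [hH2 x]
    have h6 : |2 * ‖H x‖ ^ 2 * (x j / (1 + ‖x‖ ^ 2)) ^ 2| ≤ 2 * (C ^ 2 * ρ x) := by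
      rw [abs_of_nonneg (by positivity)]
      have h7 : (x j / (1 + ‖x‖ ^ 2)) ^ 2 ≤ 1 := by
        rw [← sq_abs]
        exact pow_le_one₀ (abs_nonneg _) h2
      have h0 : 0 ≤ ‖H x‖ ^ 2 := by positivity
      nlinarith [hH2 x]
    rw [h1]
    have h8 := abs_add_le (2 * inner ℝ (H x) (fderiv ℝ H x (ei j)) * (x j / (1 + ‖x‖ ^ 2)))
      (‖H x‖ ^ 2 * (1 / (1 + ‖x‖ ^ 2)))
    have h9 := abs_sub (2 * inner ℝ (H x) (fderiv ℝ H x (ei j)) * (x j / (1 + ‖x‖ ^ 2)) +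
        ‖H x‖ ^ 2 * (1 / (1 + ‖x‖ ^ 2))) (2 * ‖H x‖ ^ 2 * (x j / (1 + ‖x‖ ^ 2)) ^ 2)
    linarith
  have hS0 : ∫ x, ∑ j, fderiv ℝ (Vf H j) x (ei j) = 0 := by
    rw [integral_finsetSum _ fun j _ => hVd j]
    exact Finset.sum_eq_zero fun j _ => hV d j (Vf H j) (hVc j) (hVi j) (hVd j)
  have hmain : c * ∫ x, ‖H x‖ ^ 2 * (1 / (1 + ‖x‖ ^ 2)) ≤ c⁻¹ * ∫ x, gr H x := by
    have h1 : ∫ x, (c * (‖H x‖ ^ 2 * (1 / (1 + ‖x‖ ^ 2))) - c⁻¹ * gr H x) ≤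
        ∫ x, ∑ j, fderiv ℝ (Vf H j) x (ei j) :=
      integral_mono ((hi1.const_mul c).sub (hi2.const_mul c⁻¹))
        (integrable_finsetSum _ fun j _ => hVd j) fun x => vf_ge H hH c hc0 hdc x
    rw [hS0, integral_sub (hi1.const_mul c) (hi2.const_mul c⁻¹), integral_const_mul,
      integral_const_mul] at h1
    linarith
  have hfin : c ^ 2 * ∫ x, ‖H x‖ ^ 2 * (1 / (1 + ‖x‖ ^ 2)) ≤ ∫ x, gr H x := by
    have h1 := mul_le_mul_of_nonneg_left hmain hc0.le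
    have h2 : c * (c⁻¹ * ∫ x, gr H x) = ∫ x, gr H x := by
      rw [← mul_assoc, mul_inv_cancel₀ hc0.ne', one_mul]
    rw [h2] at h1
    calc c ^ 2 * ∫ x, ‖H x‖ ^ 2 * (1 / (1 + ‖x‖ ^ 2)) =
        c * (c * ∫ x, ‖H x‖ ^ 2 * (1 / (1 + ‖x‖ ^ 2))) := by ring
      _ ≤ _ := h1
  have e1 : ∫⁻ x, ‖H x‖ₑ ^ 2 * wt x =
      ENNReal.ofReal (∫ x, ‖H x‖ ^ 2 * (1 / (1 + ‖x‖ ^ 2))) := by
    rw [ofReal_integral_eq_lintegral_ofReal hi1 (Filter.Eventually.of_forall fun x => by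
      positivity)]
    refine lintegral_congr fun x => ?_
    rw [ENNReal.ofReal_mul (by positivity), ENNReal.ofReal_pow (norm_nonneg _), ofReal_norm]
    rfl
  have e2 : ∫⁻ x, ENNReal.ofReal (gr H x) = ENNReal.ofReal (∫ x, gr H x) := by
    rw [ofReal_integral_eq_lintegral_ofReal hi2 (Filter.Eventually.of_forall hg0)]
  have e3 : ((d : ℝ) - 2) ^ 2 / 4 = c ^ 2 := by rw [hc]; ring
  rw [e1, e2, e3, ← ENNReal.ofReal_mul (by positivity)]
  exact ENNReal.ofReal_le_ofReal hfin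

end Pool.Agent.H3.C1
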