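import Pool.Agent.H94.C1.Targets

/-!
# WL2: continuity and the `L²` estimate
-/

set_option autoImplicit false

namespace Pool.Agent.H3.C1

open MeasureTheory Set FourierTransform Pool.Agent.H82.KL Pool.Agent.H94.C1
open scoped ENNReal NNReal SchwartzMap

lemma norm_e (x : ℝ) : ‖e x‖ = 1 := by
  unfold e
  exact Complex.norm_exp_ofReal_mul_I _

lemma continuous_e : Continuous e := by
  unfold e
  fun_prop

lemma continuous_U {d : ℕ} (b : EE d → ℂ) (hb : Continuous b) (hs : HasCompactSupport b) :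
    Continuous (U b) := by
  unfold U
  refine continuous_of_dominated (bound := fun ξ => ‖b ξ‖) ?_ ?_ ?_ ?_
  · intro z
    have h1 : Continuous fun ξ : EE d => e (inner ℝ z.1 ξ + z.2 * ‖ξ‖) * b ξ :=
      (continuous_e.comp (by fun_prop)).mul hb
    exact h1.aestronglyMeasurable
  · intro z
    refine Filter.Eventually.of_forall fun ξ => ?_
    rw [norm_mul, norm_e, one_mul]
  · exact (hb.integrable_of_hasCompactSupport hs).norm
  · refine Filter.Eventually.of_forall fun ξ => ?_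
    exact (continuous_e.comp (by fun_prop)).mul continuous_const

/-- WL2 -/
theorem pf_WL2 (hS : T_SYM) (hP : T_PLU) (hW : T_WF) : T_WL2 := by
  intro d a ha
  obtain ⟨M, hM⟩ := ha.2.1.exists_bound_of_continuous ha.1.continuous
  have hM0 : 0 ≤ M := (norm_nonneg _).trans (hM 0)
  refine ⟨M.toNNReal ^ 2, fun R f hR hf => ?_⟩
  obtain ⟨h1, h2, _, h3⟩ := hW d f hf
  have hc : Sym (fun ξ => a ξ * 𝓕 f ξ) := (hS d a ha).2.2.2.2.2 _ h1
  have hWU : W a f = U (fun ξ => a ξ * 𝓕 f ξ) := funext fun z => h3 a z ha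
  rw [hWU]
  refine ⟨continuous_U _ hc.1.continuous hc.2.1, ?_⟩
  have h4 : ∫⁻ ξ, ‖a ξ * 𝓕 f ξ‖ₑ ^ 2 ≤ (M.toNNReal ^ 2 : ℝ≥0) * ∫⁻ y, ‖f y‖ₑ ^ 2 := by
    rw [← h2, ← lintegral_const_mul' _ _ ENNReal.coe_ne_top]
    refine lintegral_mono fun ξ => ?_
    rw [enorm_mul, mul_pow, ENNReal.coe_pow]
    gcongr
    rw [← ofReal_norm]
    exact ENNReal.ofReal_le_ofReal (hM ξ)
  calc ∫⁻ t in Icc R (2 * R), ∫⁻ x : EE d, ‖U (fun ξ => a ξ * 𝓕 f ξ) (x, t)‖ₑ ^ 2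
      = ∫⁻ t in Icc R (2 * R), ∫⁻ ξ, ‖a ξ * 𝓕 f ξ‖ₑ ^ 2 :=
        lintegral_congr fun t => hP d _ t hc
    _ = (∫⁻ ξ, ‖a ξ * 𝓕 f ξ‖ₑ ^ 2) * ENNReal.ofReal R := by
        rw [setLIntegral_const, Real.volume_Icc]
        congr 2
        ring
    _ ≤ ((M.toNNReal ^ 2 : ℝ≥0) * ∫⁻ y, ‖f y‖ₑ ^ 2) * ENNReal.ofReal R := by gcongr
    _ = (M.toNNReal ^ 2 : ℝ≥0) * ENNReal.ofReal R * ∫⁻ y, ‖f y‖ₑ ^ 2 := by ring

end Pool.Agent.H3.C1
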